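import Mathlib

/-!
# Infinitely many points on the curve `1 - s ^ 2 = C ^ 2`, `1 - (p / q) ^ 2 * s ^ 2 = D ^ 2`
-/

set_option autoImplicit false

namespace Pool.Agent.H3.FSq

/-- An integral point whose `S` is divisible by `2 ^ m` exactly. -/
def Good (p q : ℤ) (m : ℕ) : Prop := ∃ S T U W R : ℤ, T ^ 2 - S ^ 2 = U ^ 2 ∧
  q ^ 2 * T ^ 2 - p ^ 2 * S ^ 2 = W ^ 2 ∧ Odd T ∧ Odd U ∧ Odd W ∧ Odd R ∧ S = 2 ^ m * R

theorem Good.succ {p q : ℤ} (hq : Odd q) {m : ℕ} (hm : 1 ≤ m) (h : Good p q m) :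
    Good p q (m + 1) := by
  obtain ⟨S, T, U, W, R, h1, h2, hT, hU, hW, hR, hS⟩ := h
  have hSe : Even S := by
    obtain ⟨k, rfl⟩ : ∃ k, m = k + 1 := ⟨m - 1, by omega⟩
    exact ⟨2 ^ k * R, by rw [hS]; ring⟩
  refine ⟨2 * q * S * T * U * W, q ^ 2 * T ^ 4 - p ^ 2 * S ^ 4, q ^ 2 * T ^ 2 * U ^ 2 - S ^ 2 * W ^ 2,
    q * (T ^ 2 * W ^ 2 - p ^ 2 * S ^ 2 * U ^ 2), q * R * T * U * W, ?_, ?_, ?_, ?_, ?_, ?_, ?_⟩
  · have e : (2 * q * S * T * U * W) ^ 2 = 4 * q ^ 2 * S ^ 2 * T ^ 2 * (T ^ 2 - S ^ 2) *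
        (q ^ 2 * T ^ 2 - p ^ 2 * S ^ 2) := by rw [h1, h2]; ring
    rw [e, ← h1, ← h2]
    ring
  · have e : (2 * q * S * T * U * W) ^ 2 = 4 * q ^ 2 * S ^ 2 * T ^ 2 * (T ^ 2 - S ^ 2) *
        (q ^ 2 * T ^ 2 - p ^ 2 * S ^ 2) := by rw [h1, h2]; ring
    rw [e, ← h1, ← h2]
    ring
  · exact ((hq.pow).mul hT.pow).sub_even ((hSe.pow_of_ne_zero (by norm_num)).mul_left _)
  · exact (((hq.pow).mul hT.pow).mul hU.pow).sub_even
      ((hSe.pow_of_ne_zero (by norm_num)).mul_right _)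
  · exact hq.mul ((hT.pow.mul hW.pow).sub_even
      (((hSe.pow_of_ne_zero (by norm_num)).mul_left _).mul_right _))
  · exact (((hq.mul hR).mul hT).mul hU).mul hW
  · rw [hS]
    ring

theorem Good.add {p q : ℤ} (hq : Odd q) {m : ℕ} (hm : 1 ≤ m) (h : Good p q m) (n : ℕ) :
    Good p q (m + n) := by
  induction n with
  | zero => exact h
  | succ n ih => exact Good.succ hq (Nat.le_add_right_of_le hm) ih

/-- `s = 2 ^ m * R / T` with `R`, `T` odd. -/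
def Val (s : ℚ) (m : ℕ) : Prop := ∃ R T : ℤ, Odd R ∧ Odd T ∧ s = 2 ^ m * R / T

theorem Val.unique {s : ℚ} {a b : ℕ} (ha : Val s a) (hb : Val s b) : a = b := by
  obtain ⟨R, T, hR, hT, h1⟩ := ha
  obtain ⟨R', T', hR', hT', h2⟩ := hb
  have hT0 : (T : ℚ) ≠ 0 := by
    have : T ≠ 0 := by rintro rfl; exact absurd hT (by decide)
    exact_mod_cast this
  have hT0' : (T' : ℚ) ≠ 0 := by
    have : T' ≠ 0 := by rintro rfl; exact absurd hT' (by decide)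
    exact_mod_cast this
  rw [h1, div_eq_div_iff hT0 hT0'] at h2
  have h3 : 2 ^ a * (R * T') = 2 ^ b * (R' * T) := by
    have : (2 : ℚ) ^ a * R * T' = 2 ^ b * R' * T := h2
    have : (2 : ℤ) ^ a * R * T' = 2 ^ b * R' * T := by exact_mod_cast this
    linarith
  have key : ∀ {a b : ℕ} {x y : ℤ}, Odd x → 2 ^ a * x = 2 ^ b * y → b ≤ a := by
    intro a b x y hx h
    by_contra hlt
    push Not at hlt
    obtain ⟨c, rfl⟩ := Nat.exists_eq_add_of_lt hlt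
    have h2 : (2 : ℤ) ^ a ≠ 0 := pow_ne_zero _ two_ne_zero
    have h3 : x = 2 * (2 ^ c * y) := by
      apply mul_left_cancel₀ h2
      rw [h]
      ring
    rw [h3] at hx
    exact (Int.not_even_iff_odd.2 hx) (even_two_mul _)
  exact le_antisymm (key (hR'.mul hT) h3.symm) (key (hR.mul hT') h3)

/-- A rational point. -/
def Pt (k s C D : ℚ) : Prop :=
  0 < s ∧ s < 1 ∧ C ≠ 0 ∧ D ≠ 0 ∧ 1 - s ^ 2 = C ^ 2 ∧ 1 - k ^ 2 * s ^ 2 = D ^ 2

theorem Good.pt {p q : ℤ} (hq : Odd q) {m : ℕ} (h : Good p q m) :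
    ∃ s C D : ℚ, Pt (p / q) s C D ∧ Val s m := by
  obtain ⟨S, T, U, W, R, h1, h2, hT, hU, hW, hR, hS⟩ := h
  have hq0 : (q : ℚ) ≠ 0 := by
    have : q ≠ 0 := by rintro rfl; exact absurd hq (by decide)
    exact_mod_cast this
  have hT0 : (T : ℚ) ≠ 0 := by
    have : T ≠ 0 := by rintro rfl; exact absurd hT (by decide)
    exact_mod_cast this
  have hU0 : (U : ℚ) ≠ 0 := by
    have : U ≠ 0 := by rintro rfl; exact absurd hU (by decide)
    exact_mod_cast this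
  have hW0 : (W : ℚ) ≠ 0 := by
    have : W ≠ 0 := by rintro rfl; exact absurd hW (by decide)
    exact_mod_cast this
  have hR0 : R ≠ 0 := by rintro rfl; exact absurd hR (by decide)
  have hS0 : (S : ℚ) ≠ 0 := by
    have : S ≠ 0 := by rw [hS]; exact mul_ne_zero (pow_ne_zero _ two_ne_zero) hR0
    exact_mod_cast this
  have e1 : (T : ℚ) ^ 2 - S ^ 2 = U ^ 2 := by exact_mod_cast h1
  have e2 : (q : ℚ) ^ 2 * T ^ 2 - p ^ 2 * S ^ 2 = W ^ 2 := by exact_mod_cast h2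
  have e3 : 1 - (|(S : ℚ) / T|) ^ 2 = ((U : ℚ) / T) ^ 2 := by
    rw [sq_abs, div_pow, div_pow, ← e1]
    field_simp
  have e4 : 1 - ((p : ℚ) / q) ^ 2 * (|(S : ℚ) / T|) ^ 2 = ((W : ℚ) / (q * T)) ^ 2 := by
    rw [sq_abs, div_pow, div_pow, div_pow, ← e2]
    field_simp
  have hC : (U : ℚ) / T ≠ 0 := div_ne_zero hU0 hT0
  refine ⟨|(S : ℚ) / T|, U / T, W / (q * T), ⟨abs_pos.2 (div_ne_zero hS0 hT0), ?_, hC,
    div_ne_zero hW0 (mul_ne_zero hq0 hT0), e3, e4⟩, |R|, |T|, odd_abs.2 hR, odd_abs.2 hT, ?_⟩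
  · have : 0 < ((U : ℚ) / T) ^ 2 := by positivity
    rw [← e3] at this
    nlinarith [abs_nonneg ((S : ℚ) / T)]
  · rw [abs_div, hS]
    push_cast
    rw [abs_mul, abs_of_pos (by positivity : (0 : ℚ) < 2 ^ m)]

/-- The sequence of points. -/
theorem seq {p q : ℤ} (hq : Odd q) {m : ℕ} (hm : 1 ≤ m) (h : Good p q m) :
    ∃ s C D : ℕ → ℚ, (∀ n, Pt (p / q) (s n) (C n) (D n)) ∧ (∀ n, Val (s n) (m + n)) ∧
      Function.Injective s := by
  choose s C D hP hV using fun n => (h.add hq hm n).pt hq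
  refine ⟨s, C, D, hP, hV, fun a b hab => ?_⟩
  have := (hV a).unique (hab ▸ hV b)
  omega

end Pool.Agent.H3.FSq
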