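import Pool.Agent.H3.FSq.Six

/-!
# Five points with nine of the ten differences squares
-/

set_option autoImplicit false

namespace Pool.Agent.H3.FSq

/-- `0 = x 0 < x 1 < x 2 < x 3 < x 4`, all differences except possibly one are squares. -/
def NN (i j : Fin 5) (x : Fin 5 → ℚ) : Prop :=
  x 0 = 0 ∧ StrictMono x ∧ ∀ k l, k < l → (k, l) ≠ (i, j) → IsSquare (x l - x k)

/-- Integral vectors which are not divisible by a square. -/
def Prim (y : Fin 5 → ℤ) : Prop := ∀ m : ℤ, (∀ k, m ^ 2 ∣ y k) → IsUnit m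

theorem exists_prim_int (N : ℕ) : ∀ (y : Fin 5 → ℤ) (k : Fin 5), y k ≠ 0 → (y k).natAbs ≤ N →
    ∃ m : ℤ, m ≠ 0 ∧ ∃ z : Fin 5 → ℤ, (∀ l, y l = m ^ 2 * z l) ∧ Prim z := by
  induction N with
  | zero => intro y k h1 h2; omega
  | succ N ih =>
    intro y k h1 h2
    by_cases hp : Prim y
    · exact ⟨1, one_ne_zero, y, fun l => by ring, hp⟩
    · unfold Prim at hp
      push Not at hp
      obtain ⟨m, hm, hu⟩ := hp
      choose z hz using hm
      have hm0 : m ≠ 0 := by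
        rintro rfl
        exact h1 (by rw [hz k]; ring)
      have hzk : z k ≠ 0 := by
        intro h
        exact h1 (by rw [hz k, h, mul_zero])
      have hm2 : 2 ≤ m.natAbs := by
        have h3 : m.natAbs ≠ 0 := Int.natAbs_ne_zero.2 hm0
        have h4 : m.natAbs ≠ 1 := fun h => hu (Int.isUnit_iff_natAbs_eq.2 h)
        omega
      have hlt : (z k).natAbs < (y k).natAbs := by
        rw [hz k, Int.natAbs_mul, Int.natAbs_pow]
        have h5 : 0 < (z k).natAbs := Int.natAbs_pos.2 hzk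
        calc (z k).natAbs < 4 * (z k).natAbs := by omega
          _ ≤ m.natAbs ^ 2 * (z k).natAbs := Nat.mul_le_mul_right _ (by nlinarith)
      obtain ⟨m', hm', w, hw, hwp⟩ := ih z k hzk (by omega)
      exact ⟨m * m', mul_ne_zero hm0 hm', w, fun l => by rw [hz l, hw l]; ring, hwp⟩

theorem exists_prim (x : Fin 5 → ℚ) (c : Fin 5) (hc : x c ≠ 0) :
    ∃ t : ℚ, t ≠ 0 ∧ ∃ y : Fin 5 → ℤ, (∀ k, (y k : ℚ) = t ^ 2 * x k) ∧ Prim y := by
  set N : ℕ := ∏ k, (x k).den with hN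
  have hN0 : (N : ℚ) ≠ 0 := by
    have : N ≠ 0 := Finset.prod_ne_zero_iff.2 fun k _ => (x k).den_ne_zero
    exact_mod_cast this
  have hint : ∀ k, ∃ z : ℤ, (z : ℚ) = (N : ℚ) ^ 2 * x k := by
    intro k
    obtain ⟨e, he⟩ : (x k).den ∣ N := Finset.dvd_prod_of_mem _ (Finset.mem_univ k)
    refine ⟨N * e * (x k).num, ?_⟩
    have h1 : x k * (x k).den = (x k).num := Rat.mul_den_eq_num (x k)
    have h2 : (N : ℚ) = (x k).den * e := by exact_mod_cast he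
    push_cast
    rw [← h1]
    calc (N : ℚ) * e * (x k * (x k).den) = N * ((x k).den * e) * x k := by ring
      _ = N ^ 2 * x k := by rw [← h2]; ring
  choose z hz using hint
  have hzc : z c ≠ 0 := by
    intro h
    have := hz c
    rw [h, Int.cast_zero] at this
    exact mul_ne_zero (pow_ne_zero 2 hN0) hc this.symm
  obtain ⟨m, hm, w, hw, hwp⟩ := exists_prim_int _ z c hzc le_rfl
  have hm' : (m : ℚ) ≠ 0 := by exact_mod_cast hm
  refine ⟨N / m, div_ne_zero hN0 hm', w, fun k => ?_, hwp⟩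
  have h1 : ((z k : ℤ) : ℚ) = (m : ℚ) ^ 2 * w k := by exact_mod_cast hw k
  rw [hz k] at h1
  rw [div_pow, div_mul_eq_mul_div, h1]
  field_simp

theorem isSquare_int {z : ℤ} (h : IsSquare (z : ℚ)) : IsSquare z := by
  exact Rat.isSquare_intCast_iff.1 h

/-- From normalised rational solutions to primitive integral ones. -/
theorem primitive (i j : Fin 5) (T : Set (Fin 5 → ℚ)) (hT : T.Infinite)
    (hNN : ∀ x ∈ T, NN i j x) (c : Fin 5) (hc : ∀ x ∈ T, x c = 1) :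
    {y : Fin 5 → ℤ | y 0 = 0 ∧ StrictMono y ∧ (∀ m : ℤ, (∀ k, m ^ 2 ∣ y k) → IsUnit m) ∧
      ∀ k l, k < l → (k, l) ≠ (i, j) → IsSquare (y l - y k)}.Infinite := by
  have hex : ∀ x : T, ∃ t : ℚ, t ≠ 0 ∧ ∃ y : Fin 5 → ℤ,
      (∀ k, (y k : ℚ) = t ^ 2 * x.1 k) ∧ Prim y := fun x =>
    exists_prim x.1 c (by rw [hc x.1 x.2]; exact one_ne_zero)
  choose t ht y hy hp using hex
  have : Infinite T := hT.to_subtype
  refine Set.infinite_of_injective_forall_mem (f := y) ?_ ?_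
  · intro u v huv
    have h1 : (t u) ^ 2 = (t v) ^ 2 := by
      have e1 := hy u c
      have e2 := hy v c
      rw [hc _ u.2, mul_one] at e1
      rw [hc _ v.2, mul_one] at e2
      rw [← e1, ← e2, huv]
    apply Subtype.ext
    funext k
    have e1 := hy u k
    have e2 := hy v k
    rw [huv, e2, h1] at e1
    exact (mul_left_cancel₀ (pow_ne_zero 2 (ht v)) e1).symm
  · intro u
    obtain ⟨h0, hmono, hsq⟩ := hNN u.1 u.2
    have ht2 : 0 < (t u) ^ 2 := by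
      have := ht u
      positivity
    refine ⟨?_, ?_, hp u, ?_⟩
    · have := hy u 0
      rw [h0, mul_zero] at this
      exact_mod_cast this
    · intro k l hkl
      have h1 : ((y u k : ℤ) : ℚ) < (y u l : ℤ) := by
        rw [hy u k, hy u l]
        exact mul_lt_mul_of_pos_left (hmono hkl) ht2
      exact_mod_cast h1
    · intro k l hkl hne
      apply isSquare_int
      push_cast
      rw [hy u k, hy u l, ← mul_sub]
      exact IsSquare.mul ⟨t u, pow_two _⟩ (hsq k l hkl hne)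

theorem nn_mk {i j : Fin 5} {a b c d : ℚ} (ha : 0 < a) (hab : a < b) (hbc : b < c) (hcd : c < d)
    (h01 : (0, 1) ≠ (i, j) → IsSquare a) (h02 : (0, 2) ≠ (i, j) → IsSquare b)
    (h03 : (0, 3) ≠ (i, j) → IsSquare c) (h04 : (0, 4) ≠ (i, j) → IsSquare d)
    (h12 : (1, 2) ≠ (i, j) → IsSquare (b - a)) (h13 : (1, 3) ≠ (i, j) → IsSquare (c - a))
    (h14 : (1, 4) ≠ (i, j) → IsSquare (d - a)) (h23 : (2, 3) ≠ (i, j) → IsSquare (c - b))
    (h24 : (2, 4) ≠ (i, j) → IsSquare (d - b)) (h34 : (3, 4) ≠ (i, j) → IsSquare (d - c)) :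
    NN i j ![0, a, b, c, d] := by
  refine ⟨rfl, ?_, ?_⟩
  · rw [Fin.strictMono_iff_lt_succ]
    intro k
    fin_cases k
    · exact ha
    · exact hab
    · exact hbc
    · exact hcd
  · intro k l hkl hne
    fin_cases k <;> fin_cases l <;> first
      | (exact absurd hkl (by decide))
      | (have := h01 hne; simpa using this)
      | (have := h02 hne; simpa using this)
      | (have := h03 hne; simpa using this)
      | (have := h04 hne; simpa using this)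
      | (exact h12 hne)
      | (exact h13 hne)
      | (exact h14 hne)
      | (exact h23 hne)
      | (exact h24 hne)
      | (exact h34 hne)

/-- the squares -/
def sqs (x : Fin 4 → ℚ) : Fin 5 → ℚ := ![0, x 0 ^ 2, x 1 ^ 2, x 2 ^ 2, x 3 ^ 2]

theorem near_pos {i j : Fin 4} {x : Fin 4 → ℚ} (h : x ∈ Near i j) :
    0 < x 0 ∧ x 0 < x 1 ∧ x 1 < x 2 ∧ x 2 < x 3 ∧ x 3 = 1 :=
  ⟨h.1, h.2.1 (by decide), h.2.1 (by decide), h.2.1 (by decide), h.2.2.1⟩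

theorem sqs_inj (i j : Fin 4) : Set.InjOn sqs (Near i j) := by
  intro x hx y hy h
  obtain ⟨p0, p1, p2, p3, p4⟩ := near_pos hx
  obtain ⟨q0, q1, q2, q3, q4⟩ := near_pos hy
  have h0 : x 0 ^ 2 = y 0 ^ 2 := congrFun h 1
  have h1 : x 1 ^ 2 = y 1 ^ 2 := congrFun h 2
  have h2 : x 2 ^ 2 = y 2 ^ 2 := congrFun h 3
  have key : ∀ {a b : ℚ}, 0 < a → 0 < b → a ^ 2 = b ^ 2 → a = b := fun ha hb hab =>
    (pow_left_inj₀ ha.le hb.le two_ne_zero).1 hab
  funext k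
  fin_cases k
  · exact key p0 q0 h0
  · exact key (p0.trans p1) (q0.trans q1) h1
  · exact key (p0.trans (p1.trans p2)) (q0.trans (q1.trans q2)) h2
  · exact p4.trans q4.symm

theorem nine_of_six (i j : Fin 4) (h : (Near i j).Infinite) :
    {y : Fin 5 → ℤ | y 0 = 0 ∧ StrictMono y ∧ (∀ m : ℤ, (∀ k, m ^ 2 ∣ y k) → IsUnit m) ∧
      ∀ k l, k < l → (k, l) ≠ (i.succ, j.succ) → IsSquare (y l - y k)}.Infinite := by
  refine primitive i.succ j.succ (sqs '' Near i j) (h.image (sqs_inj i j)) ?_ 4 ?_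
  · rintro _ ⟨x, hx, rfl⟩
    obtain ⟨p0, p1, p2, p3, p4⟩ := near_pos hx
    have hs : ∀ k l : Fin 4, k < l → (k.succ, l.succ) ≠ (i.succ, j.succ) →
        IsSquare (x l ^ 2 - x k ^ 2) := fun k l hkl hne =>
      hx.2.2.2 k l hkl fun he => hne (by rw [Prod.ext_iff] at he ⊢; exact
        ⟨congrArg Fin.succ he.1, congrArg Fin.succ he.2⟩)
    have hlt : ∀ {a b : ℚ}, 0 < a → a < b → a ^ 2 < b ^ 2 := fun ha hab =>
      pow_lt_pow_left₀ hab ha.le two_ne_zero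
    exact nn_mk (by positivity) (hlt p0 p1) (hlt (p0.trans p1) p2)
      (hlt (p0.trans (p1.trans p2)) p3)
      (fun _ => ⟨_, pow_two _⟩) (fun _ => ⟨_, pow_two _⟩) (fun _ => ⟨_, pow_two _⟩)
      (fun _ => ⟨_, pow_two _⟩)
      (hs 0 1 (by decide)) (hs 0 2 (by decide)) (hs 0 3 (by decide)) (hs 1 2 (by decide))
      (hs 1 3 (by decide)) (hs 2 3 (by decide))
  · rintro _ ⟨x, hx, rfl⟩
    have : x 3 = 1 := (near_pos hx).2.2.2.2
    show x 3 ^ 2 = 1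
    rw [this, one_pow]

/-- rotation of the six points `∞, 0, x 0 ^ 2, ..., x 3 ^ 2` by one step -/
def rot (x : Fin 4 → ℚ) : Fin 5 → ℚ :=
  ![0, 1 - x 0 ^ 2 / x 1 ^ 2, 1 - x 0 ^ 2 / x 2 ^ 2, 1 - x 0 ^ 2 / x 3 ^ 2, 1]

theorem rot_inj (i j : Fin 4) : Set.InjOn rot (Near i j) := by
  intro x hx y hy h
  obtain ⟨p0, p1, p2, p3, p4⟩ := near_pos hx
  obtain ⟨q0, q1, q2, q3, q4⟩ := near_pos hy
  have p1' := p0.trans p1
  have q1' := q0.trans q1
  have p2' := p1'.trans p2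
  have q2' := q1'.trans q2
  have h1 : 1 - x 0 ^ 2 / x 1 ^ 2 = 1 - y 0 ^ 2 / y 1 ^ 2 := congrFun h 1
  have h2 : 1 - x 0 ^ 2 / x 2 ^ 2 = 1 - y 0 ^ 2 / y 2 ^ 2 := congrFun h 2
  have h3 : 1 - x 0 ^ 2 / x 3 ^ 2 = 1 - y 0 ^ 2 / y 3 ^ 2 := congrFun h 3
  have key : ∀ {a b : ℚ}, 0 < a → 0 < b → a ^ 2 = b ^ 2 → a = b := fun ha hb hab =>
    (pow_left_inj₀ ha.le hb.le two_ne_zero).1 hab
  have e0 : x 0 ^ 2 = y 0 ^ 2 := by
    rw [p4, q4] at h3
    norm_num at h3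
    exact h3
  have e0' : x 0 ^ 2 ≠ 0 := by positivity
  have e1 : x 1 ^ 2 = y 1 ^ 2 := by
    have h4 : x 0 ^ 2 / x 1 ^ 2 = x 0 ^ 2 / y 1 ^ 2 := by rw [e0] at h1 ⊢; linarith
    rw [div_eq_div_iff (by positivity) (by positivity)] at h4
    exact (mul_left_cancel₀ e0' h4).symm
  have e2 : x 2 ^ 2 = y 2 ^ 2 := by
    have h4 : x 0 ^ 2 / x 2 ^ 2 = x 0 ^ 2 / y 2 ^ 2 := by rw [e0] at h2 ⊢; linarith
    rw [div_eq_div_iff (by positivity) (by positivity)] at h4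
    exact (mul_left_cancel₀ e0' h4).symm
  funext k
  fin_cases k
  · exact key p0 q0 e0
  · exact key p1' q1' e1
  · exact key p2' q2' e2
  · exact p4.trans q4.symm

theorem nine_rot (j : Fin 4) (hj : j ≠ 0) (h : (Near 0 j).Infinite) :
    {y : Fin 5 → ℤ | y 0 = 0 ∧ StrictMono y ∧ (∀ m : ℤ, (∀ k, m ^ 2 ∣ y k) → IsUnit m) ∧
      ∀ k l, k < l → (k, l) ≠ (0, j.castSucc) → IsSquare (y l - y k)}.Infinite := by
  refine primitive 0 j.castSucc (rot '' Near 0 j) (h.image (rot_inj 0 j)) ?_ 4 ?_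
  · rintro _ ⟨x, hx, rfl⟩
    obtain ⟨p0, p1, p2, p3, p4⟩ := near_pos hx
    have p1' := p0.trans p1
    have p2' := p1'.trans p2
    have p3' := p2'.trans p3
    have hlt : ∀ {a b : ℚ}, 0 < a → a < b → a ^ 2 < b ^ 2 := fun ha hab =>
      pow_lt_pow_left₀ hab ha.le two_ne_zero
    have hd : ∀ {a b : ℚ}, 0 < a → a < b → x 0 ^ 2 / b ^ 2 < x 0 ^ 2 / a ^ 2 := fun ha hab =>
      div_lt_div_of_pos_left (by positivity) (by positivity) (hlt ha hab)
    have hz : ∀ l : Fin 4, x l ≠ 0 → IsSquare (x l ^ 2 - x 0 ^ 2) →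
        IsSquare (1 - x 0 ^ 2 / x l ^ 2) := by
      rintro l hl ⟨r, hr⟩
      refine ⟨r / x l, ?_⟩
      have e : 1 - x 0 ^ 2 / x l ^ 2 = (x l ^ 2 - x 0 ^ 2) / x l ^ 2 := by field_simp
      rw [e, hr]
      field_simp
    have hw : ∀ k l : Fin 4, x k ≠ 0 → x l ≠ 0 → IsSquare (x l ^ 2 - x k ^ 2) →
        IsSquare ((1 - x 0 ^ 2 / x l ^ 2) - (1 - x 0 ^ 2 / x k ^ 2)) := by
      rintro k l hk hl ⟨r, hr⟩
      refine ⟨x 0 * r / (x k * x l), ?_⟩
      have e : (1 - x 0 ^ 2 / x l ^ 2) - (1 - x 0 ^ 2 / x k ^ 2) =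
          x 0 ^ 2 * (x l ^ 2 - x k ^ 2) / (x k ^ 2 * x l ^ 2) := by
        field_simp
        ring
      rw [e, hr]
      field_simp
    have hl : ∀ k : Fin 4, IsSquare (1 - (1 - x 0 ^ 2 / x k ^ 2)) := fun k =>
      ⟨x 0 / x k, by rw [div_mul_div_comm, ← pow_two, ← pow_two]; ring⟩
    refine nn_mk ?_ ?_ ?_ ?_ ?_ ?_ ?_ ?_ ?_ ?_ ?_ ?_ ?_ ?_
    · rw [sub_pos, div_lt_one (by positivity)]
      exact hlt p0 p1
    · have := hd p1' p2
      linarith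
    · have := hd p2' p3
      linarith
    · have : 0 < x 0 ^ 2 / x 3 ^ 2 := by positivity
      linarith
    · intro hne
      exact hz 1 p1'.ne' (hx.2.2.2 0 1 (by decide) fun he => hne (by
        rw [Prod.ext_iff] at he ⊢; exact ⟨rfl, congrArg Fin.castSucc he.2⟩))
    · intro hne
      exact hz 2 p2'.ne' (hx.2.2.2 0 2 (by decide) fun he => hne (by
        rw [Prod.ext_iff] at he ⊢; exact ⟨rfl, congrArg Fin.castSucc he.2⟩))
    · intro hne
      exact hz 3 p3'.ne' (hx.2.2.2 0 3 (by decide) fun he => hne (by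
        rw [Prod.ext_iff] at he ⊢; exact ⟨rfl, congrArg Fin.castSucc he.2⟩))
    · exact fun _ => ⟨1, by norm_num⟩
    · exact fun _ => hw 1 2 p1'.ne' p2'.ne' (hx.2.2.2 1 2 (by decide) fun he =>
        absurd (Prod.mk.inj he).1 (by decide))
    · exact fun _ => hw 1 3 p1'.ne' p3'.ne' (hx.2.2.2 1 3 (by decide) fun he =>
        absurd (Prod.mk.inj he).1 (by decide))
    · exact fun _ => hl 1
    · exact fun _ => hw 2 3 p2'.ne' p3'.ne' (hx.2.2.2 2 3 (by decide) fun he =>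
        absurd (Prod.mk.inj he).1 (by decide))
    · exact fun _ => hl 2
    · exact fun _ => hl 3
  · rintro _ ⟨x, hx, rfl⟩
    rfl

/-- rotation by three steps -/
def rot3 (x : Fin 4 → ℚ) : Fin 5 → ℚ :=
  ![0, (x 3 ^ 2 - x 2 ^ 2) / (x 3 ^ 2 - x 1 ^ 2), 1, x 2 ^ 2 / x 1 ^ 2,
    (x 2 ^ 2 - x 0 ^ 2) / (x 1 ^ 2 - x 0 ^ 2)]

theorem rot3_inj (i j : Fin 4) : Set.InjOn rot3 (Near i j) := by
  intro x hx y hy h
  obtain ⟨p0, p1, p2, p3, p4⟩ := near_pos hx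
  obtain ⟨q0, q1, q2, q3, q4⟩ := near_pos hy
  have p1' := p0.trans p1
  have q1' := q0.trans q1
  have p2' := p1'.trans p2
  have q2' := q1'.trans q2
  have hlt : ∀ {a b : ℚ}, 0 < a → a < b → a ^ 2 < b ^ 2 := fun ha hab =>
    pow_lt_pow_left₀ hab ha.le two_ne_zero
  have a01 := hlt p0 p1
  have b01 := hlt q0 q1
  have a12 := hlt p1' p2
  have b12 := hlt q1' q2
  have a23 := hlt p2' p3
  have b23 := hlt q2' q3
  have h1 : (x 3 ^ 2 - x 2 ^ 2) / (x 3 ^ 2 - x 1 ^ 2) =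
      (y 3 ^ 2 - y 2 ^ 2) / (y 3 ^ 2 - y 1 ^ 2) := congrFun h 1
  have h3 : x 2 ^ 2 / x 1 ^ 2 = y 2 ^ 2 / y 1 ^ 2 := congrFun h 3
  have h4 : (x 2 ^ 2 - x 0 ^ 2) / (x 1 ^ 2 - x 0 ^ 2) =
      (y 2 ^ 2 - y 0 ^ 2) / (y 1 ^ 2 - y 0 ^ 2) := congrFun h 4
  have key : ∀ {a b : ℚ}, 0 < a → 0 < b → a ^ 2 = b ^ 2 → a = b := fun ha hb hab =>
    (pow_left_inj₀ ha.le hb.le two_ne_zero).1 hab
  rw [p4, q4, one_pow] at h1
  rw [p4, one_pow] at a23
  rw [q4, one_pow] at b23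
  have s1 : 0 < x 1 ^ 2 := by positivity
  have s2 : 0 < y 1 ^ 2 := by positivity
  have s3 : 0 < x 0 ^ 2 := by positivity
  have s4 : 0 < y 0 ^ 2 := by positivity
  have e3 : x 2 ^ 2 * y 1 ^ 2 = y 2 ^ 2 * x 1 ^ 2 := by
    rwa [div_eq_div_iff s1.ne' s2.ne'] at h3
  have e1 : (1 - x 2 ^ 2) * (1 - y 1 ^ 2) = (1 - y 2 ^ 2) * (1 - x 1 ^ 2) := by
    rwa [div_eq_div_iff (by linarith) (by linarith)] at h1
  have e4 : (x 2 ^ 2 - x 0 ^ 2) * (y 1 ^ 2 - y 0 ^ 2) =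
      (y 2 ^ 2 - y 0 ^ 2) * (x 1 ^ 2 - x 0 ^ 2) := by
    rwa [div_eq_div_iff (by linarith) (by linarith)] at h4
  have hB : x 1 ^ 2 = y 1 ^ 2 := by
    have h5 : (x 2 ^ 2 - x 1 ^ 2) * (y 1 ^ 2 - x 1 ^ 2) = 0 := by
      have h6 : y 2 ^ 2 - y 1 ^ 2 = x 2 ^ 2 - x 1 ^ 2 := by linarith
      have h7 : y 2 ^ 2 = x 2 ^ 2 - x 1 ^ 2 + y 1 ^ 2 := by linarith
      rw [h7] at e3
      linarith
    rcases mul_eq_zero.1 h5 with h | h
    · linarith
    · linarith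
  have hC : x 2 ^ 2 = y 2 ^ 2 := by
    rw [← hB] at e3
    exact mul_right_cancel₀ s1.ne' e3
  have hA : x 0 ^ 2 = y 0 ^ 2 := by
    rw [← hB, ← hC] at e4
    have h5 : (x 2 ^ 2 - x 1 ^ 2) * (x 0 ^ 2 - y 0 ^ 2) = 0 := by linarith
    rcases mul_eq_zero.1 h5 with h | h
    · linarith
    · linarith
  funext k
  fin_cases k
  · exact key p0 q0 hA
  · exact key p1' q1' hB
  · exact key p2' q2' hC
  · exact p4.trans q4.symm

theorem nine04 : {y : Fin 5 → ℤ | y 0 = 0 ∧ StrictMono y ∧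
    (∀ m : ℤ, (∀ k, m ^ 2 ∣ y k) → IsUnit m) ∧
      ∀ k l, k < l → (k, l) ≠ (0, 4) → IsSquare (y l - y k)}.Infinite := by
  refine primitive 0 4 (rot3 '' Near 0 2) (near02.image (rot3_inj 0 2)) ?_ 2 ?_
  · rintro _ ⟨x, hx, rfl⟩
    obtain ⟨p0, p1, p2, p3, p4⟩ := near_pos hx
    have p1' := p0.trans p1
    have p2' := p1'.trans p2
    have p3' := p2'.trans p3
    have hlt : ∀ {a b : ℚ}, 0 < a → a < b → a ^ 2 < b ^ 2 := fun ha hab =>
      pow_lt_pow_left₀ hab ha.le two_ne_zero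
    have a01 := hlt p0 p1
    have a12 := hlt p1' p2
    have a23 := hlt p2' p3
    obtain ⟨r, hr⟩ := hx.2.2.2 0 1 (by decide) (by decide)
    obtain ⟨u, hu⟩ := hx.2.2.2 0 3 (by decide) (by decide)
    obtain ⟨v, hv⟩ := hx.2.2.2 1 2 (by decide) (by decide)
    obtain ⟨w, hw⟩ := hx.2.2.2 1 3 (by decide) (by decide)
    obtain ⟨z, hz⟩ := hx.2.2.2 2 3 (by decide) (by decide)
    have d1 : 0 < x 1 ^ 2 - x 0 ^ 2 := by linarith
    have d2 : 0 < x 3 ^ 2 - x 1 ^ 2 := by linarith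
    have d3 : 0 < x 2 ^ 2 - x 1 ^ 2 := by linarith
    have d4 : 0 < x 3 ^ 2 - x 2 ^ 2 := by linarith
    have d5 : 0 < x 3 ^ 2 - x 0 ^ 2 := by linarith
    have d6 : 0 < x 1 ^ 2 := by positivity
    have d7 : 0 < x 0 ^ 2 := by positivity
    have r0 : r ≠ 0 := by rintro rfl; rw [hr] at d1; norm_num at d1
    have w0 : w ≠ 0 := by rintro rfl; rw [hw] at d2; norm_num at d2
    have f12 : (1 : ℚ) - (x 3 ^ 2 - x 2 ^ 2) / (x 3 ^ 2 - x 1 ^ 2) =
        (x 2 ^ 2 - x 1 ^ 2) / (x 3 ^ 2 - x 1 ^ 2) := by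
      field_simp
      ring
    have f13 : x 2 ^ 2 / x 1 ^ 2 - (x 3 ^ 2 - x 2 ^ 2) / (x 3 ^ 2 - x 1 ^ 2) =
        x 3 ^ 2 * (x 2 ^ 2 - x 1 ^ 2) / (x 1 ^ 2 * (x 3 ^ 2 - x 1 ^ 2)) := by
      field_simp
      ring
    have f14 : (x 2 ^ 2 - x 0 ^ 2) / (x 1 ^ 2 - x 0 ^ 2) -
        (x 3 ^ 2 - x 2 ^ 2) / (x 3 ^ 2 - x 1 ^ 2) =
        (x 2 ^ 2 - x 1 ^ 2) * (x 3 ^ 2 - x 0 ^ 2) /
          ((x 1 ^ 2 - x 0 ^ 2) * (x 3 ^ 2 - x 1 ^ 2)) := by
      field_simp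
      ring
    have f23 : x 2 ^ 2 / x 1 ^ 2 - 1 = (x 2 ^ 2 - x 1 ^ 2) / x 1 ^ 2 := by
      field_simp
    have f24 : (x 2 ^ 2 - x 0 ^ 2) / (x 1 ^ 2 - x 0 ^ 2) - 1 =
        (x 2 ^ 2 - x 1 ^ 2) / (x 1 ^ 2 - x 0 ^ 2) := by
      field_simp
      ring
    have f34 : (x 2 ^ 2 - x 0 ^ 2) / (x 1 ^ 2 - x 0 ^ 2) - x 2 ^ 2 / x 1 ^ 2 =
        x 0 ^ 2 * (x 2 ^ 2 - x 1 ^ 2) / (x 1 ^ 2 * (x 1 ^ 2 - x 0 ^ 2)) := by
      field_simp
      ring
    refine nn_mk ?_ ?_ ?_ ?_ ?_ ?_ ?_ ?_ ?_ ?_ ?_ ?_ ?_ ?_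
    · positivity
    · rw [← sub_pos, f12]
      positivity
    · rw [← sub_pos, f23]
      positivity
    · rw [← sub_pos, f34]
      positivity
    · intro _
      exact ⟨z / w, by rw [hz, hw]; field_simp⟩
    · exact fun _ => ⟨1, by norm_num⟩
    · intro _
      exact ⟨x 2 / x 1, by field_simp⟩
    · exact fun h => absurd rfl h
    · intro _
      exact ⟨v / w, by rw [f12, hv, hw]; field_simp⟩
    · intro _
      exact ⟨x 3 * v / (x 1 * w), by rw [f13, hv, hw]; field_simp⟩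
    · intro _
      exact ⟨v * u / (r * w), by rw [f14, hv, hu, hr, hw]; field_simp⟩
    · intro _
      exact ⟨v / x 1, by rw [f23, hv]; field_simp⟩
    · intro _
      exact ⟨v / r, by rw [f24, hv, hr]; field_simp⟩
    · intro _
      exact ⟨x 0 * v / (x 1 * r), by rw [f34, hv, hr]; field_simp⟩
  · rintro _ ⟨x, hx, rfl⟩
    rfl

/-- Nine of the ten conditions. -/
theorem nine (i j : Fin 5) (hij : i < j) : {y : Fin 5 → ℤ | y 0 = 0 ∧ StrictMono y ∧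
    (∀ m : ℤ, (∀ k, m ^ 2 ∣ y k) → IsUnit m) ∧
      ∀ k l, k < l → (k, l) ≠ (i, j) → IsSquare (y l - y k)}.Infinite := by
  fin_cases i <;> fin_cases j <;> first
    | (exact absurd hij (by decide))
    | (exact nine_rot 1 (by decide) near01)
    | (exact nine_rot 2 (by decide) near02)
    | (exact nine_rot 3 (by decide) near03)
    | (exact nine04)
    | (exact nine_of_six 0 1 near01)
    | (exact nine_of_six 0 2 near02)
    | (exact nine_of_six 0 3 near03)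
    | (exact nine_of_six 1 2 near12)
    | (exact nine_of_six 1 3 near13)
    | (exact nine_of_six 2 3 near23)

end Pool.Agent.H3.FSq
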