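import Pool.Agent.H3.FSq.Ell

/-!
# Quadruples with five of the six differences squares
-/

set_option autoImplicit false

namespace Pool.Agent.H3.FSq

/-- Four rational numbers `0 < x 0 < x 1 < x 2 < x 3 = 1` such that all differences
`x l ^ 2 - x k ^ 2`, `k < l`, except possibly the one for `(k, l) = (i, j)`, are squares. -/
def Near (i j : Fin 4) : Set (Fin 4 → ℚ) :=
  {x | 0 < x 0 ∧ StrictMono x ∧ x 3 = 1 ∧
    ∀ k l, k < l → (k, l) ≠ (i, j) → IsSquare (x l ^ 2 - x k ^ 2)}

theorem near_mk {i j : Fin 4} {a b c d : ℚ} (ha : 0 < a) (hab : a < b) (hbc : b < c) (hcd : c < d)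
    (h01 : (0, 1) ≠ (i, j) → IsSquare (b ^ 2 - a ^ 2))
    (h02 : (0, 2) ≠ (i, j) → IsSquare (c ^ 2 - a ^ 2))
    (h03 : (0, 3) ≠ (i, j) → IsSquare (d ^ 2 - a ^ 2))
    (h12 : (1, 2) ≠ (i, j) → IsSquare (c ^ 2 - b ^ 2))
    (h13 : (1, 3) ≠ (i, j) → IsSquare (d ^ 2 - b ^ 2))
    (h23 : (2, 3) ≠ (i, j) → IsSquare (d ^ 2 - c ^ 2)) :
    ![a / d, b / d, c / d, 1] ∈ Near i j := by
  have hd : 0 < d := ha.trans (hab.trans (hbc.trans hcd))
  have key : ∀ {x y : ℚ}, IsSquare (y ^ 2 - x ^ 2) → IsSquare ((y / d) ^ 2 - (x / d) ^ 2) := by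
    rintro x y ⟨r, hr⟩
    refine ⟨r / d, ?_⟩
    rw [div_pow, div_pow, ← sub_div, hr]
    field_simp
  have key1 : ∀ {x : ℚ}, IsSquare (d ^ 2 - x ^ 2) → IsSquare (1 ^ 2 - (x / d) ^ 2) := by
    intro x hx
    have := key hx
    rwa [div_self hd.ne'] at this
  refine ⟨div_pos ha hd, ?_, rfl, ?_⟩
  · rw [Fin.strictMono_iff_lt_succ]
    intro k
    fin_cases k
    · exact div_lt_div_of_pos_right hab hd
    · exact div_lt_div_of_pos_right hbc hd
    · exact (div_lt_one hd).2 hcd
  · intro k l hkl hne
    fin_cases k <;> fin_cases l <;> first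
      | (exact absurd hkl (by decide))
      | (exact key (h01 hne))
      | (exact key (h02 hne))
      | (exact key1 (h03 hne))
      | (exact key (h12 hne))
      | (exact key1 (h13 hne))
      | (exact key1 (h23 hne))

theorem near03 : (Near 0 3).Infinite := by
  have hg : Good 952 1073 3 := ⟨8, 17, 15, 16575, 1, by norm_num, by norm_num, by decide,
    by decide, by decide, by decide, by norm_num⟩
  obtain ⟨s, C, D, hP, -, hinj⟩ := seq (by decide) (by norm_num) hg
  refine Set.infinite_of_injective_forall_mem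
    (f := fun n => ![952 * s n / 1105, 952 / 1105, 1073 / 1105, 1]) ?_ ?_
  · intro m n h
    have h0 := congrFun h 0
    simp only [Matrix.cons_val_zero] at h0
    exact hinj (by linarith)
  · intro n
    obtain ⟨h0, h1, hC, hD, hc, hd⟩ := hP n
    push_cast at hd
    refine near_mk (by positivity) (by linarith) (by norm_num) (by norm_num) (fun _ => ?_)
      (fun _ => ?_) (fun h => absurd rfl h) (fun _ => ?_) (fun _ => ?_) (fun _ => ?_)
    · exact ⟨952 * C n, by linear_combination 952 ^ 2 * hc⟩
    · exact ⟨1073 * D n, by linear_combination 1073 ^ 2 * hd⟩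
    · exact ⟨495, by norm_num⟩
    · exact ⟨561, by norm_num⟩
    · exact ⟨264, by norm_num⟩

theorem near02 : (Near 0 2).Infinite := by
  have hg : Good 153 185 2 := ⟨84, 85, 13, 9061, 21, by norm_num, by norm_num, by decide,
    by decide, by decide, by decide, by norm_num⟩
  obtain ⟨s, C, D, hP, -, hinj⟩ := seq (by decide) (by norm_num) hg
  refine Set.infinite_of_injective_forall_mem
    (f := fun n => ![40545 * s n / 49025, 40545 / 49025, 45153 / 49025, 1]) ?_ ?_
  · intro m n h
    have h0 := congrFun h 0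
    simp only [Matrix.cons_val_zero] at h0
    exact hinj (by linarith)
  · intro n
    obtain ⟨h0, h1, hC, hD, hc, hd⟩ := hP n
    push_cast at hd
    refine near_mk (by positivity) (by linarith) (by norm_num) (by norm_num) (fun _ => ?_)
      (fun h => absurd rfl h) (fun _ => ?_) (fun _ => ?_) (fun _ => ?_) (fun _ => ?_)
    · exact ⟨40545 * C n, by linear_combination 40545 ^ 2 * hc⟩
    · exact ⟨49025 * D n, by linear_combination 49025 ^ 2 * hd⟩
    · exact ⟨19872, by norm_num⟩
    · exact ⟨27560, by norm_num⟩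
    · exact ⟨19096, by norm_num⟩

theorem near13 : (Near 1 3).Infinite := by
  have hg : Good 171 221 2 := ⟨2652, 3277, 1925, 564655, 663, by norm_num, by norm_num, by decide,
    by decide, by decide, by decide, by norm_num⟩
  obtain ⟨s, C, D, hP, -, hinj⟩ := seq (by decide) (by norm_num) hg
  refine Set.infinite_of_injective_forall_mem
    (f := fun n => ![84132 / (108732 / s n), 88740 / (108732 / s n), 108732 / (108732 / s n), 1])
    ?_ ?_
  · intro m n h
    have h0 := congrFun h 2
    simp only [Matrix.cons_val] at h0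
    have e : ∀ n, (108732 : ℚ) / (108732 / s n) = s n := fun n => by
      have := (hP n).1.ne'
      field_simp
    rw [e, e] at h0
    exact hinj h0
  · intro n
    obtain ⟨h0, h1, hC, hD, hc, hd⟩ := hP n
    push_cast at hd
    have hx : (108732 : ℚ) < 108732 / s n := by
      rw [lt_div_iff₀ h0]
      linarith
    have e1 : (108732 / s n) * s n = 108732 := div_mul_cancel₀ _ h0.ne'
    set x := 108732 / s n
    refine near_mk (by norm_num) (by norm_num) (by norm_num) hx (fun _ => ?_)
      (fun _ => ?_) (fun _ => ?_) (fun _ => ?_) (fun h => absurd rfl h) (fun _ => ?_)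
    · exact ⟨28224, by norm_num⟩
    · exact ⟨68880, by norm_num⟩
    · refine ⟨x * D n, ?_⟩
      have e2 : (84132 : ℚ) = 171 / 221 * (x * s n) := by rw [e1]; norm_num
      rw [e2]
      linear_combination x ^ 2 * hd
    · exact ⟨62832, by norm_num⟩
    · refine ⟨x * C n, ?_⟩
      nth_rewrite 1 [← e1]
      linear_combination x ^ 2 * hc

theorem near01 : (Near 0 1).Infinite := by
  have hg : Good 40 41 2 := ⟨84, 85, 13, 925, 21, by norm_num, by norm_num, by decide,
    by decide, by decide, by decide, by norm_num⟩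
  obtain ⟨s, C, D, hP, hV, hinj⟩ := seq (by decide) (by norm_num) hg
  have hne : ∀ n, s (n + 1) ≠ 84 / 85 := by
    intro n h
    have h2 : Val (84 / 85 : ℚ) 2 := ⟨21, 85, by decide, by decide, by norm_num⟩
    have := (hV (n + 1)).unique (h ▸ h2)
    omega
  refine Set.infinite_of_injective_forall_mem
    (f := fun n => ![min (680 * s (n + 1)) 672 / 697, max (680 * s (n + 1)) 672 / 697,
      680 / 697, 1]) ?_ ?_
  · intro m n h
    have h0 := congrFun h 0
    have h1 := congrFun h 1
    simp only [Matrix.cons_val_zero, Matrix.cons_val_one, Matrix.cons_val] at h0 h1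
    have h2 : min (680 * s (m + 1)) 672 = min (680 * s (n + 1)) 672 := by linarith
    have h3 : max (680 * s (m + 1)) 672 = max (680 * s (n + 1)) 672 := by linarith
    have h4 := min_add_max (680 * s (m + 1)) 672
    have h5 := min_add_max (680 * s (n + 1)) 672
    have h6 : s (m + 1) = s (n + 1) := by linarith
    have := hinj h6
    omega
  · intro n
    obtain ⟨h0, h1, hC, hD, hc, hd⟩ := hP (n + 1)
    push_cast at hd
    have k1 : IsSquare ((680 : ℚ) ^ 2 - (680 * s (n + 1)) ^ 2) :=
      ⟨680 * C (n + 1), by linear_combination 680 ^ 2 * hc⟩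
    have k2 : IsSquare ((697 : ℚ) ^ 2 - (680 * s (n + 1)) ^ 2) :=
      ⟨697 * D (n + 1), by linear_combination 697 ^ 2 * hd⟩
    have k3 : IsSquare ((680 : ℚ) ^ 2 - 672 ^ 2) := ⟨104, by norm_num⟩
    have k4 : IsSquare ((697 : ℚ) ^ 2 - 672 ^ 2) := ⟨185, by norm_num⟩
    have k5 : IsSquare ((697 : ℚ) ^ 2 - 680 ^ 2) := ⟨153, by norm_num⟩
    have hx0 : 0 < 680 * s (n + 1) := by positivity
    have hx1 : 680 * s (n + 1) < 680 := by linarith
    have hx2 : 680 * s (n + 1) ≠ 672 := fun h => hne n (by linarith)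
    set x := 680 * s (n + 1)
    rcases lt_or_gt_of_ne hx2 with hx | hx
    · simp only [min_eq_left hx.le, max_eq_right hx.le]
      exact near_mk hx0 hx (by norm_num) (by norm_num) (fun h => absurd rfl h) (fun _ => k1)
        (fun _ => k2) (fun _ => k3) (fun _ => k4) (fun _ => k5)
    · simp only [min_eq_right hx.le, max_eq_left hx.le]
      exact near_mk (by norm_num) hx hx1 (by norm_num) (fun h => absurd rfl h) (fun _ => k3)
        (fun _ => k4) (fun _ => k1) (fun _ => k2) (fun _ => k5)

theorem near12 : (Near 1 2).Infinite := by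
  have hg : Good 40 41 2 := ⟨84, 85, 13, 925, 21, by norm_num, by norm_num, by decide,
    by decide, by decide, by decide, by norm_num⟩
  obtain ⟨s, C, D, hP, hV, hinj⟩ := seq (by decide) (by norm_num) hg
  have hne : ∀ n, s (n + 1) ≠ 84 / 85 := by
    intro n h
    have h2 : Val (84 / 85 : ℚ) 2 := ⟨21, 85, by decide, by decide, by norm_num⟩
    have := (hV (n + 1)).unique (h ▸ h2)
    omega
  have hD2 : ∀ n, (697 * |D n|) ^ 2 = 697 ^ 2 - (680 * s n) ^ 2 := by
    intro n
    obtain ⟨h0, h1, hC, hD, hc, hd⟩ := hP n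
    push_cast at hd
    rw [mul_pow, sq_abs]
    linear_combination -697 ^ 2 * hd
  refine Set.infinite_of_injective_forall_mem
    (f := fun n => ![153 / 697, min (697 * |D (n + 1)|) 185 / 697,
      max (697 * |D (n + 1)|) 185 / 697, 1]) ?_ ?_
  · intro m n h
    have h0 := congrFun h 1
    have h1 := congrFun h 2
    simp only [Matrix.cons_val_zero, Matrix.cons_val_one, Matrix.cons_val] at h0 h1
    have h2 : min (697 * |D (m + 1)|) 185 = min (697 * |D (n + 1)|) 185 := by linarith
    have h3 : max (697 * |D (m + 1)|) 185 = max (697 * |D (n + 1)|) 185 := by linarith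
    have h4 := min_add_max (697 * |D (m + 1)|) 185
    have h5 := min_add_max (697 * |D (n + 1)|) 185
    have h6 : 697 * |D (m + 1)| = 697 * |D (n + 1)| := by linarith
    have h7 := hD2 (m + 1)
    rw [h6, hD2 (n + 1)] at h7
    have h8 : s (m + 1) ^ 2 = s (n + 1) ^ 2 := by linarith
    have h9 := (pow_left_inj₀ (hP (m + 1)).1.le (hP (n + 1)).1.le two_ne_zero).1 h8
    have := hinj h9
    omega
  · intro n
    have hDn := hD2 (n + 1)
    obtain ⟨h0, h1, hC, hD, hc, hd⟩ := hP (n + 1)
    have hx0 : 0 < 697 * |D (n + 1)| := by positivity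
    have k0 : (697 * |D (n + 1)|) ^ 2 - 153 ^ 2 = (680 * C (n + 1)) ^ 2 := by
      rw [hDn]
      linear_combination 680 ^ 2 * hc
    have k1 : IsSquare ((697 * |D (n + 1)|) ^ 2 - 153 ^ 2) := ⟨680 * C (n + 1), by
      rw [k0]; ring⟩
    have k2 : IsSquare ((697 : ℚ) ^ 2 - (697 * |D (n + 1)|) ^ 2) := ⟨680 * s (n + 1), by
      rw [hDn]; ring⟩
    have k3 : IsSquare ((697 : ℚ) ^ 2 - 153 ^ 2) := ⟨680, by norm_num⟩
    have k4 : IsSquare ((185 : ℚ) ^ 2 - 153 ^ 2) := ⟨104, by norm_num⟩
    have k5 : IsSquare ((697 : ℚ) ^ 2 - 185 ^ 2) := ⟨672, by norm_num⟩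
    have hx1 : 697 * |D (n + 1)| < 697 := by
      have : 0 < (680 * s (n + 1)) ^ 2 := by positivity
      nlinarith
    have hx3 : 153 < 697 * |D (n + 1)| := by
      have : 0 < (680 * C (n + 1)) ^ 2 := by positivity
      nlinarith
    have hx2 : 697 * |D (n + 1)| ≠ 185 := by
      intro h
      rw [h] at hDn
      have h8 : s (n + 1) ^ 2 = (84 / 85) ^ 2 := by norm_num at hDn ⊢; linarith
      exact hne n ((pow_left_inj₀ h0.le (by norm_num) two_ne_zero).1 h8)
    set x := 697 * |D (n + 1)|
    rcases lt_or_gt_of_ne hx2 with hx | hx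
    · simp only [min_eq_left hx.le, max_eq_right hx.le]
      exact near_mk (by norm_num) hx3 hx (by norm_num) (fun _ => k1) (fun _ => k4)
        (fun _ => k3) (fun h => absurd rfl h) (fun _ => k2) (fun _ => k5)
    · simp only [min_eq_right hx.le, max_eq_left hx.le]
      exact near_mk (by norm_num) (by norm_num) hx hx1 (fun _ => k4) (fun _ => k1)
        (fun _ => k3) (fun h => absurd rfl h) (fun _ => k5) (fun _ => k2)

theorem near23 : (Near 2 3).Infinite := by
  have hg : Good 84 85 3 := ⟨40, 41, 9, 925, 5, by norm_num, by norm_num, by decide,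
    by decide, by decide, by decide, by norm_num⟩
  obtain ⟨s, C, D, hP, hV, hinj⟩ := seq (by decide) (by norm_num) hg
  have hne : ∀ n, s (n + 1) ≠ 40 / 41 := by
    intro n h
    have h2 : Val (40 / 41 : ℚ) 3 := ⟨5, 41, by decide, by decide, by norm_num⟩
    have := (hV (n + 1)).unique (h ▸ h2)
    omega
  refine Set.infinite_of_injective_forall_mem
    (f := fun n => ![672 / max (680 / s (n + 1)) 697, 680 / max (680 / s (n + 1)) 697,
      min (680 / s (n + 1)) 697 / max (680 / s (n + 1)) 697, 1]) ?_ ?_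
  · intro m n h
    have hp : ∀ n, (0 : ℚ) < max (680 / s (n + 1)) 697 := fun n =>
      lt_max_of_lt_right (by norm_num)
    have h0 := congrFun h 0
    have h1 := congrFun h 2
    simp only [Matrix.cons_val_zero, Matrix.cons_val_one, Matrix.cons_val] at h0 h1
    have h2 : max (680 / s (m + 1)) 697 = max (680 / s (n + 1)) 697 := by
      rw [div_eq_div_iff (hp m).ne' (hp n).ne'] at h0
      linarith
    rw [h2] at h1
    have h3 := (div_left_inj' (hp n).ne').1 h1
    have h4 := min_add_max (680 / s (m + 1)) 697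
    have h5 := min_add_max (680 / s (n + 1)) 697
    have h6 : 680 / s (m + 1) = 680 / s (n + 1) := by linarith
    rw [div_eq_div_iff (hP (m + 1)).1.ne' (hP (n + 1)).1.ne'] at h6
    have := hinj (show s (m + 1) = s (n + 1) by linarith)
    omega
  · intro n
    obtain ⟨h0, h1, hC, hD, hc, hd⟩ := hP (n + 1)
    push_cast at hd
    have hx : (680 : ℚ) < 680 / s (n + 1) := by
      rw [lt_div_iff₀ h0]
      linarith
    have e1 : (680 / s (n + 1)) * s (n + 1) = 680 := div_mul_cancel₀ _ h0.ne'
    have hx2 : 680 / s (n + 1) ≠ 697 := by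
      intro h
      rw [h] at e1
      exact hne n (by linarith)
    set x := 680 / s (n + 1)
    have k1 : IsSquare (x ^ 2 - 672 ^ 2) := by
      refine ⟨x * D (n + 1), ?_⟩
      have e2 : (672 : ℚ) = 84 / 85 * (x * s (n + 1)) := by rw [e1]; norm_num
      rw [e2]
      linear_combination x ^ 2 * hd
    have k2 : IsSquare (x ^ 2 - 680 ^ 2) := by
      refine ⟨x * C (n + 1), ?_⟩
      nth_rewrite 1 [← e1]
      linear_combination x ^ 2 * hc
    have k3 : IsSquare ((680 : ℚ) ^ 2 - 672 ^ 2) := ⟨104, by norm_num⟩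
    have k4 : IsSquare ((697 : ℚ) ^ 2 - 672 ^ 2) := ⟨185, by norm_num⟩
    have k5 : IsSquare ((697 : ℚ) ^ 2 - 680 ^ 2) := ⟨153, by norm_num⟩
    rcases lt_or_gt_of_ne hx2 with hx' | hx'
    · simp only [min_eq_left hx'.le, max_eq_right hx'.le]
      exact near_mk (by norm_num) (by norm_num) hx hx' (fun _ => k3) (fun _ => k1)
        (fun _ => k4) (fun _ => k2) (fun _ => k5) (fun h => absurd rfl h)
    · simp only [min_eq_right hx'.le, max_eq_left hx'.le]
      exact near_mk (by norm_num) (by norm_num) (by norm_num) hx' (fun _ => k3) (fun _ => k4)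
        (fun _ => k1) (fun _ => k5) (fun _ => k2) (fun h => absurd rfl h)

end Pool.Agent.H3.FSq
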